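import Pool.Agent.LibGX66.U2
import Pool.Agent.LibBE37F.BF7

/-! The final statement. -/

open MeasureTheory Set Filter Topology BGS EM73
open scoped ContDiff ENNReal unitInterval

namespace GX66

theorem inp : Inp := fun _ _ _ _ _ _ hP hν _ hA => F37.ae_blocks hP hν hA

end GX66
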