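import Pool.Agent.LibGW66.C1

/-! Windows at special times for the generic metric: definitions, with a general bound `G` of the
windows. -/

open MeasureTheory Set Filter Topology
open scoped ContDiff

namespace GX66

open FG33 GWin Mes BGS FB23
open GW66 (dev)

/-- The metric is good at the time `2 ^ k` up to the precision `1 / (n + 1)`. -/
structure Good (G : ℕ → ℕ → ℝ) {Γ : Type} [Group Γ] [MulAction Γ Pl] {D : Set Pl} (A : ℕ → ℝ → ℂ) (n k : ℕ)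
    (m : Mt Γ D) : Prop where
  sep : GN33.QG Γ m.1.1 n (n * √k) ((2 ^ k : ℝ) ^ (-(1 / 2) : ℝ))
  dev : ∀ k' i : ℕ, k ≤ n ^ 2 * k' → k' ≤ k → √k ≤ 2 ^ (i + 1) → (2 : ℝ) ^ i ≤ G n k →
    ∀ x : ℕ × ℕ × ℚ × ℚ, Encodable.encode x ≤ n → 0 < x.2.2.1 → x.2.2.1 < x.2.2.2 →
      |dev (lam m) A x k' i| < 1 / ((n : ℝ) + 1)

/-- The special blocks and windows. -/
def SS (G : ℕ → ℕ → ℝ) (k : ℕ → ℕ) (k' i : ℕ) : Prop :=
  ∃ n : ℕ, k n ≤ n ^ 2 * k' ∧ k' ≤ k n ∧ √(k n) ≤ 2 ^ (i + 1) ∧ (2 : ℝ) ^ i ≤ G n (k n)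

end GX66
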