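import Pool.Agent.LibGX66.P0
import Pool.Agent.LibBF73.V2

/-! `Good` is an open condition (copy of `LibGW66/C3`). -/

open MeasureTheory Set Filter Topology
open scoped ContDiff

namespace GX66

open FG33 GWin Mes BGS FB23
open GW66 (dev)

variable {Γ : Type} [Group Γ] [MulAction Γ Pl] {D : Set Pl} {G : ℕ → ℕ → ℝ}

/-- The indices of the conditions. -/
private def C3_I (G : ℕ → ℕ → ℝ) (n k : ℕ) : Set (ℕ × ℕ × (ℕ × ℕ × ℚ × ℚ)) :=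
  {p | k ≤ n ^ 2 * p.1 ∧ p.1 ≤ k ∧ √k ≤ 2 ^ (p.2.1 + 1) ∧ (2 : ℝ) ^ p.2.1 ≤ G n k ∧
    Encodable.encode p.2.2 ≤ n ∧ 0 < p.2.2.2.2.1 ∧ p.2.2.2.2.1 < p.2.2.2.2.2}

private theorem C3_fin (G : ℕ → ℕ → ℝ) (n k : ℕ) : (C3_I G n k).Finite := by
  have h1 : {x : ℕ × ℕ × ℚ × ℚ | Encodable.encode x ≤ n}.Finite :=
    Set.Finite.preimage (Encodable.encode_injective.injOn) (Set.finite_Iic n)
  refine ((Set.finite_Iic k).prod ((Set.finite_Iic ⌈G n k⌉₊).prod h1)).subset ?_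
  rintro ⟨k', i, x⟩ ⟨-, h2, -, h3, h4, -, -⟩
  refine Set.mem_prod.2 ⟨h2, Set.mem_prod.2 ⟨?_, h4⟩⟩
  have h5 : (2 : ℕ) ^ i ≤ ⌈G n k⌉₊ := by
    have h7 := h3.trans (Nat.le_ceil _)
    exact_mod_cast h7
  have h6 : i < 2 ^ i := Nat.lt_two_pow_self
  show i ≤ ⌈G n k⌉₊
  omega

theorem good_open (hX : Surface Γ D) {A : ℕ → ℝ → ℂ} (hA : ∀ j, IsAmp (A j)) (n k : ℕ) :
    IsOpen {m : Mt Γ D | Good G A n k m} := by
  have hdev : ∀ p : ℕ × ℕ × (ℕ × ℕ × ℚ × ℚ),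
      IsOpen {m : Mt Γ D | |dev (lam m) A p.2.2 p.1 p.2.1| < 1 / ((n : ℝ) + 1)} := by
    rintro ⟨k', i, j, r, u, v⟩
    have h1 : Continuous fun m : Mt Γ D =>
        ∫ τ in ((u : ℝ) * 2 ^ k')..((v : ℝ) * 2 ^ k'), st (lam m) (A j) (2 ^ i) τ ^ r :=
      B35.blk_cont hX (hA j) (one_le_pow₀ (by norm_num)) _ _ r
    have h2 : Continuous fun m : Mt Γ D => dev (lam m) A (j, r, u, v) k' i :=
      (continuous_const.mul h1).sub continuous_const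
    exact isOpen_lt h2.abs continuous_const
  have h : {m : Mt Γ D | Good G A n k m} =
      {m : Mt Γ D | GN33.QG Γ m.1.1 n (n * √k) ((2 ^ k : ℝ) ^ (-(1 / 2) : ℝ))} ∩
        ⋂ p ∈ C3_I G n k, {m : Mt Γ D | |dev (lam m) A p.2.2 p.1 p.2.1| < 1 / ((n : ℝ) + 1)} := by
    ext m
    constructor
    · intro hm
      refine ⟨hm.sep, Set.mem_iInter₂.2 ?_⟩
      rintro ⟨k', i, x⟩ ⟨h1, h2, h3, h4, h5, h6, h7⟩
      exact hm.dev k' i h1 h2 h3 h4 x h5 h6 h7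
    · rintro ⟨hm1, hm2⟩
      refine ⟨hm1, fun k' i h1 h2 h3 h4 x h5 h6 h7 => ?_⟩
      exact (Set.mem_iInter₂.1 hm2) (k', i, x) ⟨h1, h2, h3, h4, h5, h6, h7⟩
  rw [h]
  exact (GN33.QG_open hX _ _ _).inter ((C3_fin G n k).isOpen_biInter fun p _ => hdev p)

end GX66
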