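import Pool.Agent.LibGX66.P0
import Pool.Agent.LibBE37F.SqL

/-! A metric with the moments over the blocks and separated lengths is good at all large times. -/

open MeasureTheory Set Filter Topology
open scoped ContDiff

namespace GX66

open FG33 GWin Mes BGS FB23
open GW66 (dev)

/-- The moments over the blocks (this is `F37.BLim`). -/
def BL [F37.Sq] (lev : ℕ → ℝ) (A : ℕ → ℝ → ℂ) : Prop :=
  ∀ (j r : ℕ) (u v : ℚ), 0 < u → u < v → ∃ κ1 : ℝ, 0 < κ1 ∧ ∀ ε : ℝ, 0 < ε →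
    ∃ (Λ : ℝ) (k0 : ℕ), ∀ k ≥ k0, ∀ i : ℕ, Λ ≤ 2 ^ i → (2 : ℝ) ^ i ≤ F37.Lm κ1 k →
      |1 / (((v : ℝ) - u) * 2 ^ k) * (∫ τ in ((u : ℝ) * 2 ^ k)..((v : ℝ) * 2 ^ k),
        GWin.st lev (A j) (2 ^ i) τ ^ r) - gaussMom (GWin.vg (A j)) r| ≤ ε

/-- The bound at the special times. -/
def Gx (L0 : ℝ → ℝ) (_ k : ℕ) : ℝ := L0 (2 ^ k)

/-- The scales are good for `L0`. -/
structure Ad [F37.Sq] (L0 : ℝ → ℝ) : Prop where
  fast : ∀ᶠ k : ℕ in atTop, (k : ℝ) ≤ Real.log (k + 2) * F37.Sq.g k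
  le : ∀ κ : ℝ, 0 < κ → ∀ n : ℕ, ∀ᶠ k : ℕ in atTop, ∀ k' : ℕ, k ≤ n ^ 2 * k' → k' ≤ k →
    L0 (2 ^ k) ≤ F37.Lm κ k'

theorem g_Lm [F37.Sq] {κ1 : ℝ} (hκ1 : 0 < κ1) (k : ℕ) :
    Real.exp (κ1 * F37.Sq.g k) ≤ F37.Lm κ1 k := by
  unfold F37.Lm
  rw [mul_comm, Real.exp_mul]
  refine Real.rpow_le_rpow (Real.exp_pos _).le ?_ hκ1.le
  have h : Real.exp (F37.Sq.g k) ≤ (⌈Real.exp (F37.Sq.g k)⌉₊ : ℝ) := Nat.le_ceil _
  have hk : (0 : ℝ) ≤ k := Nat.cast_nonneg k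
  unfold F37.bk
  push_cast
  linarith

/-- The scales for `L0`. -/
theorem exists_Ad {L0 : ℝ → ℝ} (h : ∀ c : ℝ, 0 < c → ∀ᶠ T : ℝ in atTop, L0 T ≤ T ^ c) :
    ∃ S : F37.Sq, @Ad S L0 := by
  obtain ⟨u, hu0⟩ : ∃ u : ℝ → ℝ, u = fun T => Real.log (max 1 (L0 T)) := ⟨_, rfl⟩
  have hu : ∀ c : ℝ, 0 < c → ∀ᶠ T : ℝ in atTop, u T ≤ c * Real.log T := by
    intro c hc
    filter_upwards [h c hc, eventually_ge_atTop 1] with T h1 h2
    have hT : 0 < T := by linarith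
    rw [← Real.log_rpow hT, hu0]
    refine Real.log_le_log (by positivity) (max_le ?_ h1)
    exact Real.one_le_rpow h2 hc.le
  letI S : F37.Sq := F37.SqOf hu
  refine ⟨S, ⟨?_, ?_⟩⟩
  · filter_upwards [F37.SqP_ev hu 0] with k hk
    have h1 := (F37.SqB_spec hk).2
    have h2 := F37.SqG_ge u k
    have hb : (0 : ℝ) < (F37.SqB u k : ℝ) + 1 := by positivity
    rw [div_le_iff₀ hb] at h2
    show (k : ℝ) ≤ Real.log (k + 2) * F37.SqG u k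
    have h3 := mul_le_mul_of_nonneg_left h1 (F37.SqG_nonneg u k)
    linarith
  · intro κ hκ n
    have h0 : Tendsto (fun j : ℕ => ((F37.SqB u j : ℝ) + 1)) atTop atTop :=
      tendsto_atTop_add_const_right _ _ (tendsto_natCast_atTop_atTop.comp (F37.SqB_top hu))
    obtain ⟨j0, hj0⟩ := eventually_atTop.1 ((F37.SqP_ev hu 0).and
      (h0.eventually_ge_atTop ((n : ℝ) ^ 2 / κ)))
    filter_upwards [eventually_ge_atTop (n ^ 2 * j0 + 1)] with k hk k' h1 h2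
    have hj : j0 ≤ k' := by
      by_contra hlt
      push Not at hlt
      have e4 : n ^ 2 * k' ≤ n ^ 2 * j0 := Nat.mul_le_mul_left _ hlt.le
      omega
    obtain ⟨a1, a2⟩ := hj0 k' hj
    refine le_trans ?_ (g_Lm hκ k')
    have hP := F37.SqB_spec a1
    have hT : (2 : ℝ) ^ k' ≤ 2 ^ k := pow_le_pow_right₀ one_le_two h2
    have h4 := hP.1 (2 ^ k) hT
    rw [Real.log_pow] at h4
    have hlog2 : Real.log 2 ≤ 1 := by
      have := Real.log_two_lt_d9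
      linarith
    have h5 : (k : ℝ) * Real.log 2 ≤ (n : ℝ) ^ 2 * k' := by
      have e1 : (k : ℝ) ≤ (n : ℝ) ^ 2 * k' := by exact_mod_cast h1
      have e2 : (k : ℝ) * Real.log 2 ≤ k * 1 :=
        mul_le_mul_of_nonneg_left hlog2 (Nat.cast_nonneg k)
      linarith
    have hb : (0 : ℝ) < (F37.SqB u k' : ℝ) + 1 := by positivity
    have h6 : u (2 ^ k) ≤ κ * F37.SqG u k' := by
      have e1 : (k' : ℝ) / ((F37.SqB u k' : ℝ) + 1) ≤ F37.SqG u k' := F37.SqG_ge u k'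
      refine le_trans ?_ (mul_le_mul_of_nonneg_left e1 hκ.le)
      rw [mul_div_assoc', le_div_iff₀ hb]
      have e2 : (n : ℝ) ^ 2 ≤ κ * ((F37.SqB u k' : ℝ) + 1) := by
        rw [div_le_iff₀ hκ] at a2
        linarith
      have e3 : u (2 ^ k) * ((F37.SqB u k' : ℝ) + 1) * ((F37.SqB u k' : ℝ) + 1) ≤
          κ * k' * ((F37.SqB u k' : ℝ) + 1) := by
        calc u (2 ^ k) * ((F37.SqB u k' : ℝ) + 1) * ((F37.SqB u k' : ℝ) + 1)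
            = u (2 ^ k) * ((F37.SqB u k' : ℝ) + 1) ^ 2 := by ring
          _ ≤ (n : ℝ) ^ 2 * k' := h4.trans h5
          _ ≤ κ * ((F37.SqB u k' : ℝ) + 1) * k' :=
            mul_le_mul_of_nonneg_right e2 (Nat.cast_nonneg k')
          _ = κ * k' * ((F37.SqB u k' : ℝ) + 1) := by ring
      exact le_of_mul_le_mul_right e3 hb
    have h7 : L0 (2 ^ k) ≤ Real.exp (u (2 ^ k)) := by
      rw [hu0]
      show L0 (2 ^ k) ≤ Real.exp (Real.log (max 1 (L0 (2 ^ k))))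
      rw [Real.exp_log (lt_of_lt_of_le one_pos (le_max_left _ _))]
      exact le_max_right _ _
    exact h7.trans (Real.exp_le_exp.2 h6)

variable {Γ : Type} [Group Γ] [MulAction Γ Pl] {D : Set Pl}

theorem good_of [F37.Sq] {L0 : ℝ → ℝ} (h0 : Ad L0) {A : ℕ → ℝ → ℂ} {m : Mt Γ D} (hB : BL (lam m) A)
    (hq : ∀ n : ℕ, ∀ᶠ k : ℕ in atTop,
      GN33.QG Γ m.1.1 n (n * √k) ((2 ^ k : ℝ) ^ (-(1 / 2) : ℝ))) (n : ℕ) :
    ∀ᶠ k : ℕ in atTop, Good (Gx L0) A n k m := by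
  have h : ∀ x : ℕ × ℕ × ℚ × ℚ, ∃ (κ Λ : ℝ) (k0 : ℕ), 0 < κ ∧ (0 < x.2.2.1 →
      x.2.2.1 < x.2.2.2 → ∀ k ≥ k0, ∀ i : ℕ, Λ ≤ 2 ^ i → (2 : ℝ) ^ i ≤ F37.Lm κ k →
        |dev (lam m) A x k i| ≤ 1 / ((n : ℝ) + 2)) := by
    rintro ⟨j, r, u, v⟩
    by_cases huv : 0 < u ∧ u < v
    · obtain ⟨κ, hκ, h0⟩ := hB j r u v huv.1 huv.2
      obtain ⟨Λ, k0, h1⟩ := h0 (1 / ((n : ℝ) + 2)) (by positivity)
      exact ⟨κ, Λ, k0, hκ, fun _ _ => h1⟩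
    · exact ⟨1, 0, 0, one_pos, fun h1 h2 => absurd ⟨h1, h2⟩ huv⟩
  choose κ Λ k0 hκ hx using h
  have hfin : {x : ℕ × ℕ × ℚ × ℚ | Encodable.encode x ≤ n}.Finite :=
    Set.Finite.preimage (Encodable.encode_injective.injOn) (Set.finite_Iic n)
  obtain ⟨Λ', hΛ'⟩ := (hfin.image Λ).bddAbove
  obtain ⟨k0', hk0'⟩ := (hfin.image k0).bddAbove
  have hsq : ∀ᶠ k : ℕ in atTop, 2 * Λ' ≤ √(k : ℝ) :=
    (Real.tendsto_sqrt_atTop.comp tendsto_natCast_atTop_atTop).eventually_ge_atTop _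
  have hG : ∀ᶠ k : ℕ in atTop, ∀ x ∈ {x : ℕ × ℕ × ℚ × ℚ | Encodable.encode x ≤ n}, ∀ k' : ℕ,
      k ≤ n ^ 2 * k' → k' ≤ k → Gx L0 n k ≤ F37.Lm (κ x) k' :=
    (hfin.eventually_all).2 fun x _ => h0.le _ (hκ x) n
  filter_upwards [hq n, eventually_ge_atTop (n ^ 2 * k0' + 1), hsq, hG] with k h1 h2 h3 hG'
  refine ⟨h1, fun k' i h4 h5 h6 h7 x h8 h9 h10 => ?_⟩
  have e1 : Λ x ≤ Λ' := hΛ' ⟨x, h8, rfl⟩
  have e2 : k0 x ≤ k0' := hk0' ⟨x, h8, rfl⟩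
  have e3 : k' ≥ k0 x := by
    by_contra hlt
    push Not at hlt
    have e4 : n ^ 2 * k' ≤ n ^ 2 * k0' := Nat.mul_le_mul_left _ (by omega)
    omega
  have e5 : Λ x ≤ 2 ^ i := by
    rw [pow_succ] at h6
    linarith
  have e9 := hx x h9 h10 k' e3 i e5 (h7.trans (hG' x h8 k' h4 h5))
  refine lt_of_le_of_lt e9 ?_
  exact one_div_lt_one_div_of_lt (by positivity) (by linarith)

end GX66
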