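import Pool.Agent.LibGX66.P0

/-! The hypothesis of the local theorem from the special blocks (copy of `LibGW66/C6`). -/

open MeasureTheory Set Filter Topology
open scoped ContDiff

namespace GX66

open FG33 GWin Mes BGS FB23
open GW66 (dev BS)

variable {Γ : Type} [Group Γ] [MulAction Γ Pl] {D : Set Pl} {G : ℕ → ℕ → ℝ}

theorem bs_of {A : ℕ → ℝ → ℂ} {m : Mt Γ D} {k : ℕ → ℕ} (h : ∀ n, Good G A n (k n) m) (j : ℕ) :
    BS (lam m) (SS G k) (A j) := by
  intro r u v hu huv ε hε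
  obtain ⟨x, hx⟩ : ∃ x : ℕ × ℕ × ℚ × ℚ, x = (j, r, u, v) := ⟨_, rfl⟩
  obtain ⟨n1, hn1⟩ := exists_nat_one_div_lt hε
  obtain ⟨n0, hn0⟩ : ∃ n0 : ℕ, n0 = max n1 (Encodable.encode x) := ⟨_, rfl⟩
  refine ⟨0, 1 + ∑ n ∈ Finset.range n0, k n, ?_⟩
  intro k' hk' i _ hS
  obtain ⟨n, h1, h2, h3, h4⟩ := hS
  have hn : n0 ≤ n := by
    by_contra hlt
    have hlt' : n < n0 := not_le.mp hlt
    have h5 : k n ≤ ∑ n ∈ Finset.range n0, k n :=
      Finset.single_le_sum (f := k) (fun _ _ => Nat.zero_le _) (Finset.mem_range.mpr hlt')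
    omega
  have hen : Encodable.encode x ≤ n := le_trans (le_max_right _ _) (hn0 ▸ hn)
  have hn1n : n1 ≤ n := le_trans (le_max_left _ _) (hn0 ▸ hn)
  have h6 := (h n).dev k' i h1 h2 h3 h4 x hen (by rw [hx]; exact hu) (by rw [hx]; exact huv)
  have h7 : (1 : ℝ) / ((n : ℝ) + 1) ≤ 1 / ((n1 : ℝ) + 1) := by
    apply one_div_le_one_div_of_le (by positivity)
    have : (n1 : ℝ) ≤ n := by exact_mod_cast hn1n
    linarith
  rw [hx] at h6
  have h8 : |dev (lam m) A (j, r, u, v) k' i| ≤ ε := by linarith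
  exact h8

end GX66
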