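import Pool.Agent.LibGX66.P3
import Pool.Agent.LibGX66.P6
import Pool.Agent.LibGX66.P7
import Pool.Agent.LibGW66.C8

/-! The generic metric from a dense set of good metrics (copy of `LibGW66/C8` with a general bound
`G` of the windows). -/

open MeasureTheory ProbabilityTheory Set Filter Topology
open scoped ContDiff ENNReal NNReal

namespace GX66

open FG33 GWin Mes BGS FB23 EM73
open GW66 (Loc loc glue goeMeans_of_mom)

variable {G : ℕ → ℕ → ℝ}

/-- The windows: a slow growth and large values at special times. -/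
theorem lam_of (G : ℕ → ℕ → ℝ) {k : ℕ → ℕ} (hk : ∀ n, n + 1 ≤ k n) {Lam0 : ℝ → ℝ}
    (h0 : Tendsto Lam0 atTop atTop) :
    ∃ Lam : ℝ → ℝ, Tendsto Lam atTop atTop ∧ (∀ F : ℝ → ℝ,
      (∃ n0 : ℕ, ∀ n ≥ n0, ∀ k : ℕ, n + 1 ≤ k → F (2 ^ k) ≤ G n k) →
        ∃ᶠ T in atTop, F T ≤ Lam T) ∧
      ∀ n0 : ℕ, ∀ᶠ T in atTop, ∀ L : ℝ, Lam0 T < L → L ≤ Lam T →
        ∃ n ≥ n0, T = 2 ^ k n ∧ L ≤ G n (k n) := by
  classical
  obtain ⟨Lam, hLam⟩ : ∃ Lam : ℝ → ℝ, Lam = fun T =>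
    if h : ∃ n, T = (2 : ℝ) ^ k n then max (Lam0 T) (G (Nat.find h) (k (Nat.find h)))
    else Lam0 T := ⟨_, rfl⟩
  have hge : ∀ T, Lam0 T ≤ Lam T := by
    intro T
    simp only [hLam]
    split_ifs
    · exact le_max_left _ _
    · exact le_rfl
  -- large times have large indices
  have hbig : ∀ n0 : ℕ, ∀ᶠ T : ℝ in atTop, ∀ n : ℕ, T = 2 ^ k n → n0 ≤ n := by
    intro n0
    have h4 : ∀ᶠ T : ℝ in atTop, ∀ n ∈ Finset.range n0, T ≠ 2 ^ k n :=
      (Filter.eventually_all_finset _).2 fun n _ => eventually_ne_atTop _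
    filter_upwards [h4] with T hT n hn
    by_contra h
    exact hT n (Finset.mem_range.2 (not_le.1 h)) hn
  refine ⟨Lam, tendsto_atTop_mono hge h0, ?_, ?_⟩
  · rintro F ⟨n0, hn0⟩
    obtain ⟨T0, hT0⟩ := (hbig n0).exists_forall_of_atTop
    rw [frequently_atTop]
    intro T1
    obtain ⟨n, hn⟩ := exists_nat_ge (max T0 T1)
    have h1 : (n : ℝ) ≤ 2 ^ k n := by
      have h2 : (n : ℝ) + 1 ≤ k n := by exact_mod_cast hk n
      have h3 : (k n : ℝ) < 2 ^ k n := by exact_mod_cast Nat.lt_two_pow_self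
      linarith
    have hex : ∃ n', (2 : ℝ) ^ k n = 2 ^ k n' := ⟨n, rfl⟩
    refine ⟨2 ^ k n, ((le_max_right _ _).trans hn).trans h1, ?_⟩
    have h5 := Nat.find_spec hex
    have h6 : n0 ≤ Nat.find hex := hT0 _ (((le_max_left _ _).trans hn).trans h1) _ h5
    have h7 : Lam (2 ^ k n) = max (Lam0 (2 ^ k n)) (G (Nat.find hex) (k (Nat.find hex))) := by
      rw [hLam]
      simp only
      rw [dif_pos hex]
    rw [h7]
    refine le_trans ?_ (le_max_right _ _)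
    have h8 := hn0 _ h6 _ (hk (Nat.find hex))
    have h9 : F (2 ^ k n) = F (2 ^ k (Nat.find hex)) := congrArg F h5
    rw [h9]
    exact h8
  · intro n0
    filter_upwards [hbig n0] with T hT L hL1 hL2
    by_cases hex : ∃ n, T = (2 : ℝ) ^ k n
    · refine ⟨Nat.find hex, hT _ (Nat.find_spec hex), Nat.find_spec hex, ?_⟩
      rw [hLam] at hL2
      simp only at hL2
      rw [dif_pos hex] at hL2
      rcases le_max_iff.1 hL2 with h | h
      · exact absurd h (not_le.2 hL1)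
      · exact h
    · rw [hLam] at hL2
      simp only at hL2
      rw [dif_neg hex] at hL2
      exact absurd hL2 (not_le.2 hL1)

variable {Γ : Type} [Group Γ] [MulAction Γ Pl] {D : Set Pl}

theorem qi_of {A : ℕ → ℝ → ℂ} {m : Mt Γ D} {k : ℕ → ℕ} (hk : ∀ n, n + 1 ≤ k n)
    (h : ∀ n, Good G A n (k n) m) (n : ℕ) : GN33.QI Γ m.1.1 n := by
  intro s e hA
  have h1 : (1 : ℝ) ≤ √(k n) := by
    rw [Real.one_le_sqrt]
    exact_mod_cast le_trans (Nat.le_add_left 1 n) (hk n)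
  have h2 : (n : ℝ) ≤ n * √(k n) := le_mul_of_one_le_right (Nat.cast_nonneg _) h1
  have h3 := (h n).sep s e (by exact_mod_cast hA.card) ⟨hA.card.trans h2, hA.prim, hA.nc,
    fun g hg => (hA.coef g hg).trans h2, fun g hg => (hA.len g hg).trans h2, hA.ne⟩
  have h4 : (0 : ℝ) < (2 ^ k n : ℝ) ^ (-(1 / 2) : ℝ) := by positivity
  exact abs_pos.1 (h4.trans h3)

/-- One metric. -/
theorem one (hX : Surface Γ D) (hO : BR.Ori Γ) {A : ℕ → ℝ → ℂ} (hA : FB23.Dense A)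
    {m : Mt Γ D} {k : ℕ → ℕ} (hk : ∀ n, n + 1 ≤ k n) (h : ∀ n, Good G A n (k n) m) :
    ∃ Lam0 Lam : ℝ → ℝ, (Tendsto Lam0 atTop atTop ∧
        Tendsto (fun T => Lam0 T / Real.log T) atTop (𝓝 0) ∧ BGM.SepG Γ m.1.1 Lam0) ∧
      Tendsto Lam atTop atTop ∧ (∀ F : ℝ → ℝ,
        (∃ n0 : ℕ, ∀ n ≥ n0, ∀ k : ℕ, n + 1 ≤ k → F (2 ^ k) ≤ G n k) →
          ∃ᶠ T in atTop, F T ≤ Lam T) ∧
      ∀ L' : ℝ → ℝ, Tendsto L' atTop atTop → (∀ᶠ T in atTop, L' T ≤ Lam T) →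
        GOEMeans m L' ∧ GOEWindows m L' := by
  have hl : Lev (lam m) := GD.lev hX m
  obtain ⟨Lam0, h01, h02, h03, h04⟩ := B35.slow_at hX m (qi_of hk h)
    (fun n => (Nat.le_succ n).trans (hk n)) (fun n => le_trans (Nat.le_add_left 1 n) (hk n))
    fun n => (h n).sep
  obtain ⟨Lam, h1, h2, h3⟩ := lam_of G hk h01
  refine ⟨Lam0, Lam, ⟨h01, h02, h03⟩, h1, h2, fun L' hL' hL'2 => ?_⟩
  have hloc : Loc (lam m) (SS G k) := loc hA hl fun j => bs_of h j
  have hmin : Tendsto (fun T => min (L' T) (Lam0 T)) atTop atTop := tendsto_min_atTop hL' h01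
  have hmin2 : ∀ᶠ T in atTop, min (L' T) (Lam0 T) ≤ Lam0 T :=
    Eventually.of_forall fun T => min_le_right _ _
  have g1 : GOEMeans m fun T => min (L' T) (Lam0 T) := goeMeans hX hO m h02 h03 hmin hmin2
  have g2 : GOEWindows m fun T => min (L' T) (Lam0 T) :=
    GD.one_metric hX hO m (SR85Z.sumrule hX hO m) h02 h03 hmin hmin2
  -- the special times
  have hsp : ∀ a : ℝ → ℂ, IsAmp a → ∀ (r : ℕ) (ε : ℝ), 0 < ε → ∀ᶠ T in atTop, Lam0 T < L' T →
      |1 / T * (∫ τ in T..(2 * T), st (lam m) a (L' T) τ ^ r) - gaussMom (vg a) r| ≤ ε ∧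
      |tm T (fun τ => st (lam m) a (L' T) τ ^ r) - gaussMom (vg a) r| ≤ ε := by
    intro a ha r ε hε
    obtain ⟨Λ, n0, hs⟩ := at_special hl (fun n => (Nat.le_succ n).trans (hk n)) hloc ha r hε
    filter_upwards [h3 n0, hL'2, hL'.eventually (eventually_ge_atTop Λ)] with T hT hT2 hT3 hlt
    obtain ⟨n, hn, rfl, hLn⟩ := hT (L' T) hlt hT2
    exact hs n hn _ hT3 ((h04 n).trans_lt hlt) hLn
  constructor
  · refine goeMeans_of_mom hl hL' fun a ha r => ?_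
    refine glue (F := fun T L => tm T fun u => st (lam m) a L u ^ r) (Lam0 := Lam0) ?_ ?_
    · have h5 := (g1 a ha).2 r
      rw [varGOE_eq ha, gauss_moments, Real.coe_toNNReal _ (vg_nonneg a)] at h5
      exact h5
    · intro ε hε
      filter_upwards [hsp a ha r ε hε] with T hT hlt
      exact (hT hlt).2
  · refine B35.goe_of_mom hl hL' fun a ha r => ?_
    refine glue (F := fun T L => (1 / T) * ∫ τ in T..2 * T, st (lam m) a L τ ^ r)
      (Lam0 := Lam0) ?_ ?_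
    · have h5 := (g2 a ha).2 r
      rw [varGOE_eq ha, gauss_moments, Real.coe_toNNReal _ (vg_nonneg a)] at h5
      exact h5
    · intro ε hε
      filter_upwards [hsp a ha r ε hε] with T hT hlt
      exact (hT hlt).1

/-- The generic metric. -/
theorem generic3 (hX : Surface Γ D) (hO : BR.Ori Γ)
    (hd : ∀ A : ℕ → ℝ → ℂ, (∀ j, IsAmp (A j)) → ∀ n : ℕ,
      _root_.Dense {m : Mt Γ D | ∃ k : ℕ, n + 1 ≤ k ∧ Good G A n k m}) :
    ∀ᶠ m in residual (Mt Γ D), ∃ Lam0 Lam : ℝ → ℝ, (Tendsto Lam0 atTop atTop ∧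
        Tendsto (fun T => Lam0 T / Real.log T) atTop (𝓝 0) ∧ BGM.SepG Γ m.1.1 Lam0) ∧
      Tendsto Lam atTop atTop ∧ (∀ F : ℝ → ℝ,
        (∃ n0 : ℕ, ∀ n ≥ n0, ∀ k : ℕ, n + 1 ≤ k → F (2 ^ k) ≤ G n k) →
          ∃ᶠ T in atTop, F T ≤ Lam T) ∧
      ∀ L' : ℝ → ℝ, Tendsto L' atTop atTop → (∀ᶠ T in atTop, L' T ≤ Lam T) →
        GOEMeans m L' ∧ GOEWindows m L' := by
  obtain ⟨A, hA⟩ := exists_dense
  have hres : ∀ᶠ m in residual (Mt Γ D), ∀ n : ℕ, ∃ k : ℕ, n + 1 ≤ k ∧ Good G A n k m := by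
    refine eventually_countable_forall.2 fun n => ?_
    refine residual_of_dense_open ?_ (hd A hA.amp n)
    have e : {m : Mt Γ D | ∃ k : ℕ, n + 1 ≤ k ∧ Good G A n k m} =
        ⋃ k : ℕ, ⋃ _ : n + 1 ≤ k, {m : Mt Γ D | Good G A n k m} := by
      ext m
      simp
    rw [e]
    exact isOpen_iUnion fun k => isOpen_iUnion fun _ => good_open hX hA.amp n k
  filter_upwards [hres] with m hm
  choose k hk hG using hm
  exact one hX hO hA hk hG

end GX66
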