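import Pool.Agent.LibGX66.P4
import Pool.Agent.LibGX66.P8
import Pool.Agent.LibGW66.Final

/-! The generic metric, from the density of the good metrics. -/

open MeasureTheory Set Filter Topology BGS EM73
open scoped ContDiff ENNReal

namespace GX66

variable {Γ : Type} [Group Γ] [MulAction Γ Pl] {D : Set Pl}

theorem generic_of (hX : Surface Γ D) (hO : BR.Ori Γ) (L0 : ℝ → ℝ)
    (hd : ∀ A : ℕ → ℝ → ℂ, (∀ j, FG33.IsAmp (A j)) → ∀ n : ℕ,
      _root_.Dense {m : Mt Γ D | ∃ k : ℕ, n + 1 ≤ k ∧ Good (Gx L0) A n k m}) :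
    ∀ᶠ m in residual (Mt Γ D),
      (∀ L : ℝ → ℝ, Tendsto L atTop atTop → Tendsto (fun T => L T / Real.log T) atTop (𝓝 0) →
        ∀ (a : ℝ → ℂ) (k : ℕ), FG33.IsAmp a → (k = 1 ∨ PosFour (FG33.tf a)) →
          lowMom m (FG33.tf a) L k = normMom (FE35.vGOE (FG33.tf a)) k) ∧
      ∃ Lam : ℝ → ℝ, Tendsto Lam atTop atTop ∧ (∃ᶠ T in atTop, L0 T ≤ Lam T) ∧
        ∀ L : ℝ → ℝ, Tendsto L atTop atTop → (∀ᶠ T in atTop, L T ≤ Lam T) →
          GOEMeans m L ∧ FG33.GOEWindows m L := by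
  filter_upwards [generic3 hX hO hd, GW66.generic hX hO] with m hm hm'
  obtain ⟨Lam0, Lam, -, h1, h2, h3⟩ := hm
  exact ⟨hm'.1, Lam, h1, h2 L0 ⟨0, fun n _ k _ => le_rfl⟩, h3⟩

end GX66
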