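import Pool.Agent.LibBGM20.E9
import Pool.Agent.LibBGM20.S1
import Pool.Agent.LibGX66.Q1

/-! The union bound for the laws `ν` of BE37 (copy of `LibBF73/V3b`). -/

open MeasureTheory Set Filter Topology
open scoped ContDiff unitInterval

namespace GX66

open BGS BGM F37
open Pool.BGR (upI pj)

variable [Sq] {Γ : Type} [Group Γ] [MulAction Γ Pl] {D : Set Pl} {m : Pl → Co} {ψ : Pl → ℝ} {L : ℕ}
  {c : ℕ → ℝ} {ν : ℕ → Measure I}

/-- The index set of the union bound. -/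
private noncomputable def V3_E9I {Γ : Type} [Group Γ] (n' L T R : ℕ) (S : Finset Γ) :
    Finset (Γ × (Fin n' → Γ) × ℤ × (Fin n' → ℤ) × (ℤ × ℤ)) :=
  haveI := Classical.decEq Γ
  (S.erase 1) ×ˢ (Fintype.piFinset fun _ : Fin n' => S.erase 1) ×ˢ
    ((Finset.Icc (-(T : ℤ)) T).erase 0) ×ˢ
    (Fintype.piFinset fun _ : Fin n' => Finset.Icc (-(T : ℤ)) T) ×ˢ grid L (R + 1)

private theorem V3_E9card {n' L T R : ℕ} (S : Finset Γ) :
    ((V3_E9I n' L T R S).card : ℝ) ≤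
      (S.card : ℝ) ^ (n' + 1) * (2 * T + 1) ^ (n' + 1) * (2 * L * (R + 1)) ^ 2 := by
  classical
  unfold V3_E9I
  rw [Finset.card_product, Finset.card_product, Finset.card_product, Finset.card_product,
    Fintype.card_piFinset_const, Fintype.card_piFinset_const]
  push_cast
  rw [PH1_card]
  have h1 : (((S.erase 1).card : ℕ) : ℝ) ≤ S.card := by
    exact_mod_cast Finset.card_le_card (Finset.erase_subset _ _)
  have h2 : ((Finset.Icc (-(T : ℤ)) T).card : ℝ) = 2 * T + 1 := by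
    rw [Int.card_Icc]
    have : ((T : ℤ) + 1 - -(T : ℤ)).toNat = 2 * T + 1 := by omega
    rw [this]
    push_cast
    ring
  have h3 : ((((Finset.Icc (-(T : ℤ)) T).erase 0).card : ℕ) : ℝ) ≤ 2 * T + 1 := by
    rw [← h2]
    exact_mod_cast Finset.card_le_card (Finset.erase_subset _ _)
  have h0 : (0 : ℝ) ≤ S.card := Nat.cast_nonneg _
  have hT : (0 : ℝ) ≤ 2 * T + 1 := by positivity
  rw [h2]
  have e : (S.card : ℝ) ^ (n' + 1) * (2 * (T : ℝ) + 1) ^ (n' + 1) * (2 * L * (R + 1)) ^ 2 =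
      (S.card : ℝ) * ((S.card : ℝ) ^ n' * ((2 * (T : ℝ) + 1) * ((2 * (T : ℝ) + 1) ^ n' *
        (2 * L * (R + 1)) ^ 2))) := by ring
  rw [e]
  push_cast
  gcongr

/-- Every bad parameter lies in one of the slices. -/
private theorem V3_E9incl (h : Cx Γ D m ψ L c) {k C₁ : ℝ}
    (hHad : ∀ ξ : Dir → I, (∀ z, curv (mx Γ m ψ L c ξ) z < 0) →
      ∃ E V F, Had (mx Γ m ψ L c ξ) k E V F)
    (hcov : ∀ ξ : Dir → I,
      (∀ z, curv (mx Γ m ψ L c ξ) z < 0) → ∀ (T n : ℕ) (g : Γ) (f : Fin n → Γ), 1 ≤ T → Prim g →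
      (∀ i, Prim (f i)) → (∀ i (γ : Γ), γ * f i * γ⁻¹ ≠ g ∧ γ * f i * γ⁻¹ ≠ g⁻¹) →
      tl (mx Γ m ψ L c ξ) g ≤ T → (∀ i, tl (mx Γ m ψ L c ξ) (f i) ≤ T) →
      ∀ R : ℕ, (n + 1) * Real.exp (C₁ * T) ≤ R →
      ∃ γ : Γ, ∃ p ∈ grid L (R + 1),
        (∃ z ∈ closure D, ds (mx Γ m ψ L c ξ) z ((γ * g * γ⁻¹) • z) = tl (mx Γ m ψ L c ξ) g) ∧
        Gd Γ m ψ L c (γ * g * γ⁻¹) f (R + 1) p ξ)
    {n' K T R : ℕ} (hT : 1 ≤ T) (hR : (n' + 1) * Real.exp (C₁ * (((K + 1) * T : ℕ) : ℝ)) ≤ R)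
    {S : Finset Γ} (hS : ∀ (ξ : Dir → I) (g : Γ),
      (∃ z ∈ closure D, ds (mx Γ m ψ L c ξ) z (g • z) ≤ (((K + 1) * T : ℕ) : ℝ)) → g ∈ S)
    {ε : ℝ} {ξ : Dir → I} (hξ : Bad Γ m ψ L c (n' + 1) K T ε ξ) :
    ∃ q ∈ V3_E9I n' L T R S, Gd Γ m ψ L c q.1 q.2.1 (R + 1) q.2.2.2.2 ξ ∧
      |q.2.2.1 * tl (mx Γ m ψ L c ξ) q.1 +
        ∑ i, q.2.2.2.1 i * tl (mx Γ m ψ L c ξ) (q.2.1 i)| ≤ ε := by
  classical
  obtain ⟨hneg, g, hprim, hdist, htl, a, ha0, haT, hsum⟩ := hξ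
  obtain ⟨i₀, hi₀⟩ := Function.ne_iff.1 ha0
  have hi₀' : a i₀ ≠ 0 := hi₀
  obtain ⟨E, V, F, hh⟩ := hHad ξ hneg
  have hiv := D2_iv h ξ
  have hKT : (K : ℝ) * T ≤ (((K + 1) * T : ℕ) : ℝ) := by
    push_cast
    have : (0 : ℝ) ≤ T := Nat.cast_nonneg _
    nlinarith
  obtain ⟨γ, p, hp, ⟨z, hz, hzt⟩, hGd⟩ := hcov ξ hneg ((K + 1) * T) n' (g i₀)
    (fun j => g (i₀.succAbove j)) (Nat.mul_pos (Nat.succ_pos K) hT) (hprim i₀)
    (fun j => hprim _) (fun j γ => hdist _ _ (Fin.succAbove_ne i₀ j) γ)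
    ((htl i₀).trans hKT) (fun j => (htl _).trans hKT) R hR
  have hmin : ∀ j : Fin n', ∃ z ∈ closure D, ∃ γ : Γ,
      ds (mx Γ m ψ L c ξ) z ((γ * g (i₀.succAbove j) * γ⁻¹) • z) =
        tl (mx Γ m ψ L c ξ) (g (i₀.succAbove j)) := fun j =>
    B2_min h.hX hiv hh (g (i₀.succAbove j))
  choose zj hzj γj hγj using hmin
  refine ⟨(γ * g i₀ * γ⁻¹, fun j => γj j * g (i₀.succAbove j) * (γj j)⁻¹, a i₀,
    fun j => a (i₀.succAbove j), p), ?_, ?_, ?_⟩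
  · have hmemS : γ * g i₀ * γ⁻¹ ∈ S := hS ξ _ ⟨z, hz, by rw [hzt]; exact (htl i₀).trans hKT⟩
    have hmemj : ∀ j, γj j * g (i₀.succAbove j) * (γj j)⁻¹ ∈ S := fun j =>
      hS ξ _ ⟨zj j, hzj j, by rw [hγj j]; exact (htl _).trans hKT⟩
    have hne : ∀ i (γ : Γ), γ * g i * γ⁻¹ ≠ 1 := by
      intro i γ h1
      exact B4_ne (hprim i) (conj_eq_one_iff.1 h1)
    have hIcc : ∀ i, a i ∈ Finset.Icc (-(T : ℤ)) T := fun i => by
      rw [Finset.mem_Icc]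
      exact abs_le.1 (haT i)
    unfold V3_E9I
    simp only [Finset.mem_product, Fintype.mem_piFinset, Finset.mem_erase]
    exact ⟨⟨hne i₀ γ, hmemS⟩, fun j => ⟨hne _ _, hmemj j⟩, ⟨hi₀', hIcc i₀⟩, fun j => hIcc _, hp⟩
  · exact E8_conj h γj hGd
  · have e : (a i₀ : ℝ) * tl (mx Γ m ψ L c ξ) (γ * g i₀ * γ⁻¹) +
        ∑ j, (a (i₀.succAbove j) : ℝ) *
          tl (mx Γ m ψ L c ξ) (γj j * g (i₀.succAbove j) * (γj j)⁻¹) =
        ∑ i, (a i : ℝ) * tl (mx Γ m ψ L c ξ) (g i) := by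
      rw [Fin.sum_univ_succAbove _ i₀, B2_conj h.hX hiv]
      congr 1
      refine Finset.sum_congr rfl fun j _ => ?_
      rw [B2_conj h.hX hiv]
    simp only
    rw [e]
    exact hsum

private theorem V3_E9real {C₂ κ cR ε S T R : ℝ} {n' L : ℕ} (hC₂ : 0 < C₂) (hκ : 0 < κ) (hc : 0 < cR)
    (hε : 0 ≤ ε) (hT : 1 ≤ T) (hR : 0 ≤ R) {K' : ℝ} (hK : 0 ≤ K') (hS0 : 0 ≤ S)
    (hS : S ≤ Real.exp (C₂ * (K' * T))) :
    S ^ (n' + 1) * (2 * T + 1) ^ (n' + 1) * (2 * L * (R + 1)) ^ 2 * (ε * (R + 1) / (κ * cR)) ≤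
      Real.exp ((C₂ * K' * (n' + 1) + 2 * (n' + 1) + (2 * L) ^ 2 / κ) * T) * (R + 1) ^ 3 * ε /
        cR := by
  have h1 : S ^ (n' + 1) ≤ Real.exp (C₂ * K' * (n' + 1) * T) := by
    calc S ^ (n' + 1) ≤ Real.exp (C₂ * (K' * T)) ^ (n' + 1) := by gcongr
      _ = Real.exp (C₂ * K' * (n' + 1) * T) := by
        rw [← Real.exp_nat_mul]
        congr 1
        push_cast
        ring
  have h2 : (2 * T + 1) ^ (n' + 1) ≤ Real.exp (2 * (n' + 1) * T) := by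
    calc (2 * T + 1) ^ (n' + 1) ≤ Real.exp (2 * T) ^ (n' + 1) := by
          gcongr
          exact Real.add_one_le_exp _
      _ = Real.exp (2 * (n' + 1) * T) := by
        rw [← Real.exp_nat_mul]
        congr 1
        push_cast
        ring
  have h3 : (2 * (L : ℝ)) ^ 2 / κ ≤ Real.exp ((2 * L) ^ 2 / κ * T) := by
    have h4 : (2 * (L : ℝ)) ^ 2 / κ ≤ (2 * L) ^ 2 / κ * T :=
      le_mul_of_one_le_right (by positivity) hT
    have h5 := Real.add_one_le_exp ((2 * (L : ℝ)) ^ 2 / κ * T)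
    linarith
  have e1 : S ^ (n' + 1) * (2 * T + 1) ^ (n' + 1) * (2 * L * (R + 1)) ^ 2 *
      (ε * (R + 1) / (κ * cR)) =
      (S ^ (n' + 1) * (2 * T + 1) ^ (n' + 1) * ((2 * L) ^ 2 / κ)) * ((R + 1) ^ 3 * ε / cR) := by
    field_simp
  have e2 : Real.exp ((C₂ * K' * (n' + 1) + 2 * (n' + 1) + (2 * L) ^ 2 / κ) * T) =
      Real.exp (C₂ * K' * (n' + 1) * T) * Real.exp (2 * (n' + 1) * T) *
        Real.exp ((2 * L) ^ 2 / κ * T) := by
    rw [← Real.exp_add, ← Real.exp_add]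
    congr 1
    ring
  rw [e1, e2]
  have hT0 : 0 ≤ 2 * T + 1 := by linarith
  calc (S ^ (n' + 1) * (2 * T + 1) ^ (n' + 1) * ((2 * L) ^ 2 / κ)) * ((R + 1) ^ 3 * ε / cR)
      ≤ (Real.exp (C₂ * K' * (n' + 1) * T) * Real.exp (2 * (n' + 1) * T) *
        Real.exp ((2 * L) ^ 2 / κ * T)) * ((R + 1) ^ 3 * ε / cR) := by gcongr
    _ = Real.exp (C₂ * K' * (n' + 1) * T) * Real.exp (2 * (n' + 1) * T) *
        Real.exp ((2 * L) ^ 2 / κ * T) * (R + 1) ^ 3 * ε / cR := by ring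

theorem V3_E9union (hν : Law ν) (h : Cx Γ D m ψ L c) (n K : ℕ) : ∃ C : ℝ, 0 < C ∧ ∀ T R : ℕ, 1 ≤ T →
    Real.exp (C * T) ≤ R → ∀ ε : ℝ, 0 < ε → F37.Pm ν {ξ : Dir → I | Bad Γ m ψ L c n K T ε ξ} ≤
      ENNReal.ofReal (Real.exp (C * T) * ((R : ℝ) + 1) ^ 3 * ε / (c R / ((Mx R : ℝ) + 1))) := by
  classical
  rcases n with _ | n'
  · refine ⟨1, one_pos, fun T R _ _ ε _ => ?_⟩
    have h1 : {ξ : Dir → I | Bad Γ m ψ L c 0 K T ε ξ} = ∅ := by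
      ext ξ
      simp only [mem_ofPred_eq, mem_empty_iff_false, iff_false]
      rintro ⟨-, g, -, -, -, a, ha0, -⟩
      exact ha0 (Subsingleton.elim _ _)
    rw [h1, measure_empty]
    exact bot_le
  obtain ⟨k, hk, hHad⟩ := E2_had h
  obtain ⟨C₁, hC₁, hcov⟩ := E8_cover h
  obtain ⟨r, C₂, N, hr, hC₂, -, -, hSex⟩ := D2_unif h
  obtain ⟨κ, hκ, hsl⟩ := V3_E7 hν h
  set A : ℝ := C₂ * (K + 1) * (n' + 1) + 2 * (n' + 1) + (2 * L) ^ 2 / κ with hA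
  have hA0 : 0 ≤ A := by positivity
  refine ⟨A + (C₁ * (K + 1) + (n' + 1)), by positivity, ?_⟩
  intro T R hT hR ε hε
  have hT1 : (1 : ℝ) ≤ T := by exact_mod_cast hT
  have hKT1 : (1 : ℝ) ≤ (((K + 1) * T : ℕ) : ℝ) := by
    exact_mod_cast Nat.mul_pos (Nat.succ_pos K) hT
  obtain ⟨S, hScard, hSmem⟩ := hSex (((K + 1) * T : ℕ) : ℝ) hKT1
  have hR' : (n' + 1) * Real.exp (C₁ * (((K + 1) * T : ℕ) : ℝ)) ≤ R := by
    refine le_trans ?_ hR
    have h1 : ((n' : ℝ) + 1) ≤ Real.exp ((n' + 1) * T) := by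
      have h2 : ((n' : ℝ) + 1) ≤ (n' + 1) * T := le_mul_of_one_le_right (by positivity) hT1
      have h3 := Real.add_one_le_exp (((n' : ℝ) + 1) * T)
      linarith
    calc (n' + 1) * Real.exp (C₁ * (((K + 1) * T : ℕ) : ℝ))
        ≤ Real.exp ((n' + 1) * T) * Real.exp (C₁ * (((K + 1) * T : ℕ) : ℝ)) := by gcongr
      _ = Real.exp ((C₁ * (K + 1) + (n' + 1)) * T) := by
        rw [← Real.exp_add]
        congr 1
        push_cast
        ring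
      _ ≤ Real.exp ((A + (C₁ * (K + 1) + (n' + 1))) * T) := by
        apply Real.exp_le_exp.2
        apply mul_le_mul_of_nonneg_right _ (by positivity)
        linarith
  have hsub : {ξ : Dir → I | Bad Γ m ψ L c (n' + 1) K T ε ξ} ⊆
      ⋃ q ∈ V3_E9I n' L T R S, {ξ : Dir → I | Gd Γ m ψ L c q.1 q.2.1 (R + 1) q.2.2.2.2 ξ ∧
        |q.2.2.1 * tl (mx Γ m ψ L c ξ) q.1 +
          ∑ i, q.2.2.2.1 i * tl (mx Γ m ψ L c ξ) (q.2.1 i)| ≤ ε} := by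
    intro ξ hξ
    obtain ⟨q, hq, hq'⟩ := V3_E9incl h hHad hcov hT hR' hSmem hξ
    simp only [mem_iUnion]
    exact ⟨q, hq, hq'⟩
  have hone : ∀ q ∈ V3_E9I n' L T R S,
      F37.Pm ν {ξ : Dir → I | Gd Γ m ψ L c q.1 q.2.1 (R + 1) q.2.2.2.2 ξ ∧
        |q.2.2.1 * tl (mx Γ m ψ L c ξ) q.1 +
          ∑ i, q.2.2.2.1 i * tl (mx Γ m ψ L c ξ) (q.2.1 i)| ≤ ε} ≤
        ENNReal.ofReal (ε * (R + 1) / (κ * (c R / ((Mx R : ℝ) + 1)))) := by
    intro q hq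
    unfold V3_E9I at hq
    simp only [Finset.mem_product, Fintype.mem_piFinset, Finset.mem_erase] at hq
    obtain ⟨⟨h1, -⟩, h2, ⟨h3, -⟩, -, h5⟩ := hq
    exact hsl R q.2.2.2.2 h5 n' q.1 q.2.1 h1 (fun i => (h2 i).1) q.2.2.1 q.2.2.2.1 h3 ε hε
  have hcR : 0 < c R / ((Mx R : ℝ) + 1) := div_pos (h.cs.pos R) (by positivity)
  calc F37.Pm ν {ξ : Dir → I | Bad Γ m ψ L c (n' + 1) K T ε ξ}
      ≤ _ := measure_mono hsub
    _ ≤ ∑ q ∈ V3_E9I n' L T R S,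
        F37.Pm ν {ξ : Dir → I | Gd Γ m ψ L c q.1 q.2.1 (R + 1) q.2.2.2.2 ξ ∧
        |q.2.2.1 * tl (mx Γ m ψ L c ξ) q.1 +
          ∑ i, q.2.2.2.1 i * tl (mx Γ m ψ L c ξ) (q.2.1 i)| ≤ ε} :=
        measure_biUnion_finset_le _ _
    _ ≤ (V3_E9I n' L T R S).card • ENNReal.ofReal (ε * (R + 1) / (κ * (c R / ((Mx R : ℝ) + 1)))) :=
        Finset.sum_le_card_nsmul _ _ _ hone
    _ = ENNReal.ofReal ((V3_E9I n' L T R S).card * (ε * (R + 1) / (κ * (c R / ((Mx R : ℝ) + 1))))) := by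
        rw [ENNReal.ofReal_mul (Nat.cast_nonneg _), ENNReal.ofReal_natCast, nsmul_eq_mul]
    _ ≤ ENNReal.ofReal
        (Real.exp ((A + (C₁ * (K + 1) + (n' + 1))) * T) * ((R : ℝ) + 1) ^ 3 * ε / (c R / ((Mx R : ℝ) + 1))) := by
        apply ENNReal.ofReal_le_ofReal
        have hE := V3_E9real (n' := n') (L := L) hC₂ hκ hcR hε.le hT1 (Nat.cast_nonneg R)
          (K' := (K : ℝ) + 1) (by positivity) (Nat.cast_nonneg S.card) (by
            refine hScard.trans (le_of_eq ?_)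
            congr 2
            push_cast
            ring)
        have h6 : Real.exp (A * T) ≤ Real.exp ((A + (C₁ * (K + 1) + (n' + 1))) * T) := by
          apply Real.exp_le_exp.2
          apply mul_le_mul_of_nonneg_right _ (by positivity)
          have : 0 ≤ C₁ * ((K : ℝ) + 1) + (n' + 1) := by positivity
          linarith
        calc ((V3_E9I n' L T R S).card : ℝ) * (ε * (R + 1) / (κ * (c R / ((Mx R : ℝ) + 1))))
            ≤ ((S.card : ℝ) ^ (n' + 1) * (2 * T + 1) ^ (n' + 1) * (2 * L * (R + 1)) ^ 2) *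
              (ε * (R + 1) / (κ * (c R / ((Mx R : ℝ) + 1)))) :=
              mul_le_mul_of_nonneg_right (V3_E9card S) (by positivity)
          _ ≤ Real.exp (A * T) * ((R : ℝ) + 1) ^ 3 * ε / (c R / ((Mx R : ℝ) + 1)) := hE
          _ ≤ Real.exp ((A + (C₁ * (K + 1) + (n' + 1))) * T) * ((R : ℝ) + 1) ^ 3 * ε / (c R / ((Mx R : ℝ) + 1)) := by
              gcongr

private theorem V3_E10num {C x w B s c' r : ℝ} (hC : 0 < C) (hx : 0 ≤ x) (hB : 0 ≤ B) (hs : 0 < s)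
    (hr0 : 0 ≤ r) (hr : r ≤ Real.exp (C * x) + 1) (hc : Real.exp (-(x * w) / 2) ≤ c')
    (hw : 8 * C + 2 ≤ w) :
    Real.exp (C * x) * (r + 1) ^ 3 * (B * Real.exp (-(x * w))) / (s * c') ≤
      27 * B / s * Real.exp (-x) := by
  have h1 : 1 ≤ Real.exp (C * x) := Real.one_le_exp (by positivity)
  have h2 : (r + 1) ^ 3 ≤ (3 * Real.exp (C * x)) ^ 3 :=
    pow_le_pow_left₀ (by linarith) (by linarith) 3
  have hc0 : 0 < c' := lt_of_lt_of_le (Real.exp_pos _) hc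
  have h3 : Real.exp (C * x) * (r + 1) ^ 3 * (B * Real.exp (-(x * w))) / (s * c') ≤
      Real.exp (C * x) * (3 * Real.exp (C * x)) ^ 3 * (B * Real.exp (-(x * w))) /
        (s * Real.exp (-(x * w) / 2)) := by
    have h4 : 0 < s * Real.exp (-(x * w) / 2) := mul_pos hs (Real.exp_pos _)
    have h5 : s * Real.exp (-(x * w) / 2) ≤ s * c' := mul_le_mul_of_nonneg_left hc hs.le
    have h6 : Real.exp (C * x) * (r + 1) ^ 3 * (B * Real.exp (-(x * w))) ≤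
        Real.exp (C * x) * (3 * Real.exp (C * x)) ^ 3 * (B * Real.exp (-(x * w))) :=
      mul_le_mul_of_nonneg_right (mul_le_mul_of_nonneg_left h2 (Real.exp_pos _).le)
        (mul_nonneg hB (Real.exp_pos _).le)
    exact div_le_div₀ (by positivity) h6 h4 h5
  refine h3.trans ?_
  have h7 : Real.exp (C * x) * (3 * Real.exp (C * x)) ^ 3 * (B * Real.exp (-(x * w))) /
      (s * Real.exp (-(x * w) / 2)) = 27 * B / s * Real.exp (4 * (C * x) - x * w / 2) := by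
    have e1 : Real.exp (4 * (C * x) - x * w / 2) =
        Real.exp (C * x) ^ 4 * Real.exp (-(x * w)) / Real.exp (-(x * w) / 2) := by
      rw [← Real.exp_nat_mul, ← Real.exp_add, ← Real.exp_sub]
      congr 1
      push_cast
      ring
    rw [e1]
    field_simp
    ring
  rw [h7]
  refine mul_le_mul_of_nonneg_left (Real.exp_le_exp.2 ?_) (by positivity)
  nlinarith

theorem V3_E10ae (hν : Law ν) {w : ℕ → ℝ} (hw : Tendsto w atTop atTop)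
    (hc : ∀ C : ℝ, 0 < C → ∀ᶠ T : ℕ in atTop,
      Real.exp (-(T * w T) / 2) ≤ c ⌈Real.exp (C * T)⌉₊ / ((Mx ⌈Real.exp (C * T)⌉₊ : ℝ) + 1))
    {s : ℝ} (hs : 0 < s)
    (h : Cx Γ D m ψ L fun R => s * c R) (n K : ℕ) (B : ℝ) :
    ∀ᵐ ξ ∂(F37.Pm ν), ∀ᶠ T : ℕ in atTop,
      ¬ Bad Γ m ψ L (fun R => s * c R) n K T (B * Real.exp (-(T * w T))) ξ := by
  obtain ⟨C, hC, hU⟩ := V3_E9union hν h n K
  have hB : 0 < |B| + 1 := by positivity
  have hev : ∀ᶠ T : ℕ in atTop, F37.Pm ν {ξ : Dir → I | Bad Γ m ψ L (fun R => s * c R) n K T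
      ((|B| + 1) * Real.exp (-(T * w T))) ξ} ≤
        ENNReal.ofReal (27 * (|B| + 1) / s * Real.exp (-(T : ℝ))) := by
    filter_upwards [hc C hC, hw.eventually_ge_atTop (8 * C + 2), eventually_ge_atTop 1]
      with T hT1 hT2 hT3
    refine (hU T ⌈Real.exp (C * T)⌉₊ hT3 (Nat.le_ceil _) _
      (mul_pos hB (Real.exp_pos _))).trans ?_
    refine ENNReal.ofReal_le_ofReal ?_
    rw [mul_div_assoc s]
    exact V3_E10num hC (Nat.cast_nonneg T) hB.le hs (Nat.cast_nonneg _)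
      (Nat.ceil_lt_add_one (Real.exp_pos _).le).le hT1 hT2
  obtain ⟨T₀, hT₀⟩ := eventually_atTop.1 hev
  have hsum : Summable fun T : ℕ => 27 * (|B| + 1) / s * Real.exp (-((T + T₀ : ℕ) : ℝ)) := by
    have h1 : Summable fun T : ℕ => Real.exp (-(T : ℝ)) := by
      have h2 := Real.summable_exp_neg_nat
      exact h2
    exact ((summable_nat_add_iff T₀).2 h1).mul_left _
  have hfin : ∑' T : ℕ, F37.Pm ν {ξ : Dir → I | Bad Γ m ψ L (fun R => s * c R) n K (T + T₀)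
      ((|B| + 1) * Real.exp (-(((T + T₀ : ℕ) : ℝ) * w (T + T₀)))) ξ} ≠ ⊤ := by
    refine ne_top_of_le_ne_top hsum.tsum_ofReal_ne_top ?_
    exact ENNReal.tsum_le_tsum fun T => hT₀ (T + T₀) (Nat.le_add_left _ _)
  filter_upwards [ae_eventually_notMem hfin] with ξ hξ
  obtain ⟨N, hN⟩ := eventually_atTop.1 hξ
  filter_upwards [eventually_ge_atTop (N + T₀)] with T hT hbad
  have h1 : T - T₀ + T₀ = T := by omega
  have h2 := hN (T - T₀) (by omega)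
  rw [h1] at h2
  apply h2
  obtain ⟨h3, g, h4, h5, h6, a, h7, h8, h9⟩ := hbad
  refine ⟨h3, g, h4, h5, h6, a, h7, h8, h9.trans ?_⟩
  exact mul_le_mul_of_nonneg_right (by linarith [le_abs_self B]) (Real.exp_pos _).le

end GX66
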