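import Pool.Agent.LibGX66.Q2
import Pool.Agent.LibBE37F.N1a
import Pool.Agent.LibGN33.G8

/-! For almost every random metric of BE37 the small combinations of lengths exceed every power of the
time (copy of `LibBF73/V3`). -/

open MeasureTheory Set Filter Topology
open scoped ContDiff unitInterval

namespace GX66

open BGS BGM B35 F37

variable [Sq] {Γ : Type} [Group Γ] [MulAction Γ Pl] {D : Set Pl} {P : Dt} {ν : ℕ → Measure I}

private theorem V3_d (R : ℕ) : F37.cn R ^ 2 / 3 ≤ F37.cn R / ((Mx R : ℝ) + 1) := by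
  have h0 := F37.cn_pos R
  have h1 := F37.cn_le R
  have h2 : (Mx R : ℝ) ≤ F37.cn R ^ (-(1 / 5) : ℝ) + 1 :=
    (Nat.ceil_lt_add_one (Real.rpow_nonneg h0.le _)).le
  have h3 : F37.cn R ^ (-(1 / 5) : ℝ) ≤ F37.cn R ^ (-1 : ℝ) :=
    Real.rpow_le_rpow_of_exponent_ge h0 h1 (by norm_num)
  rw [Real.rpow_neg_one] at h3
  have h4 : 1 ≤ (F37.cn R)⁻¹ := (one_le_inv₀ h0).2 h1
  have h5 : (Mx R : ℝ) + 1 ≤ 3 * (F37.cn R)⁻¹ := by linarith
  rw [le_div_iff₀ (by positivity)]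
  calc F37.cn R ^ 2 / 3 * ((Mx R : ℝ) + 1) ≤ F37.cn R ^ 2 / 3 * (3 * (F37.cn R)⁻¹) :=
        mul_le_mul_of_nonneg_left h5 (by positivity)
    _ = F37.cn R := by
        field_simp

/-- The scales do not grow too slowly. -/
def Fast : Prop := ∀ᶠ k : ℕ in atTop, (k : ℝ) ≤ Real.log (k + 2) * Sq.g k

theorem Kc_le {R n : ℕ} (h : (R : ℝ) < Real.exp (Sq.g n)) : Kc R ≤ n := by
  refine Nat.sInf_le ?_
  show R < F37.bk n
  have h1 : (R : ℝ) < (⌈Real.exp (Sq.g n)⌉₊ : ℝ) := lt_of_lt_of_le h (Nat.le_ceil _)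
  have h2 : R < ⌈Real.exp (Sq.g n)⌉₊ := by exact_mod_cast h1
  unfold F37.bk
  omega

private theorem V3_cn (hg : Fast) (C : ℝ) (hC : 0 < C) : ∀ᶠ T : ℕ in atTop,
    Real.exp (-(T * √(T : ℝ)) / 2) ≤
      F37.cn ⌈Real.exp (C * T)⌉₊ / ((Mx ⌈Real.exp (C * T)⌉₊ : ℝ) + 1) := by
  have hsq : Tendsto (fun T : ℕ => √(T : ℝ)) atTop atTop :=
    Real.tendsto_sqrt_atTop.comp tendsto_natCast_atTop_atTop
  have hl : Tendsto (fun T : ℕ => Real.log (T : ℝ) / √(T : ℝ)) atTop (𝓝 0) := by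
    have h2 : Tendsto (fun x : ℝ => Real.log x / x ^ (1 / 2 : ℝ)) atTop (𝓝 0) :=
      (isLittleO_log_rpow_atTop (by norm_num : (0 : ℝ) < 1 / 2)).tendsto_div_nhds_zero
    refine (h2.comp tendsto_natCast_atTop_atTop).congr fun T => ?_
    show Real.log (T : ℝ) / (T : ℝ) ^ (1 / 2 : ℝ) = _
    rw [Real.sqrt_eq_rpow]
  -- the index of the scale
  have hNt : Tendsto (fun T : ℕ => ⌈(T : ℝ) * √(T : ℝ) / 8⌉₊) atTop atTop := by
    refine tendsto_nat_ceil_atTop.comp ?_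
    have h3 : Tendsto (fun T : ℕ => √(T : ℝ) / 8) atTop atTop :=
      hsq.atTop_div_const (by norm_num)
    have h4 := tendsto_natCast_atTop_atTop (R := ℝ) |>.atTop_mul_atTop₀ h3
    refine h4.congr fun T => ?_
    ring
  have hε : (0 : ℝ) < 1 / (24 * (C + 2)) := by positivity
  filter_upwards [hl.eventually (gt_mem_nhds hε), hsq.eventually_ge_atTop 8, hNt.eventually hg,
    eventually_ge_atTop 64] with T hT hT8 hgT hT1
  have hT1' : (64 : ℝ) ≤ T := by exact_mod_cast hT1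
  have hT0 : (0 : ℝ) < T := by linarith
  have hs0 : 0 < √(T : ℝ) := Real.sqrt_pos.2 hT0
  refine le_trans ?_ (V3_d _)
  rw [le_div_iff₀ (by norm_num : (0 : ℝ) < 3)]
  set R : ℕ := ⌈Real.exp (C * T)⌉₊ with hR
  obtain ⟨N, hN⟩ : ∃ N : ℕ, N = ⌈(T : ℝ) * √(T : ℝ) / 8⌉₊ := ⟨_, rfl⟩
  rw [← hN] at hgT
  have hN1 : (T : ℝ) * √(T : ℝ) / 8 ≤ N := hN ▸ Nat.le_ceil _
  have hN2 : (N : ℝ) ≤ (T : ℝ) * √(T : ℝ) / 8 + 1 := by
    rw [hN]
    exact (Nat.ceil_lt_add_one (by positivity)).le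
  have hTs : √(T : ℝ) ≤ T := by
    rw [Real.sqrt_le_left hT0.le]
    nlinarith
  have hlN : Real.log ((N : ℝ) + 2) ≤ √(T : ℝ) / (8 * (C + 2)) := by
    have h1 : (N : ℝ) + 2 ≤ (T : ℝ) ^ 2 := by nlinarith
    have h2 : Real.log ((N : ℝ) + 2) ≤ 2 * Real.log T := by
      have h3 := Real.log_le_log (by positivity) h1
      rw [Real.log_pow] at h3
      push_cast at h3
      exact h3
    have h3 := (div_lt_iff₀ hs0).1 hT
    have h4 : 1 / (24 * (C + 2)) * √(T : ℝ) * 2 ≤ √(T : ℝ) / (8 * (C + 2)) := by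
      rw [div_mul_eq_mul_div, div_mul_eq_mul_div, div_le_div_iff₀ (by positivity) (by positivity)]
      nlinarith [mul_pos hs0 (by linarith : (0 : ℝ) < C + 2)]
    linarith
  have hgN : (C + 2) * T ≤ Sq.g N := by
    have h0 : 0 < Real.log ((N : ℝ) + 2) := by
      apply Real.log_pos
      have : (0 : ℝ) ≤ N := Nat.cast_nonneg N
      linarith
    have h1 : (T : ℝ) * √(T : ℝ) / 8 ≤ √(T : ℝ) / (8 * (C + 2)) * Sq.g N := by
      refine (hN1.trans hgT).trans ?_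
      exact mul_le_mul_of_nonneg_right hlN (Sq.nonneg N)
    have h2 : √(T : ℝ) / (8 * (C + 2)) * Sq.g N = √(T : ℝ) / 8 * (Sq.g N / (C + 2)) := by
      field_simp
    have h3 : (T : ℝ) * √(T : ℝ) / 8 = √(T : ℝ) / 8 * T := by ring
    rw [h2, h3] at h1
    have h4 := le_of_mul_le_mul_left h1 (by positivity)
    rw [le_div_iff₀ (by linarith)] at h4
    linarith
  have hRN : (R : ℝ) < Real.exp (Sq.g N) := by
    have h3 := Nat.ceil_lt_add_one (Real.exp_pos (C * T)).le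
    have h4 : 1 ≤ Real.exp (C * T) := Real.one_le_exp (by positivity)
    have h5 : Real.exp ((C + 2) * T) = Real.exp (C * T) * Real.exp (2 * T) := by
      rw [← Real.exp_add]
      congr 1
      ring
    have h6 : (2 : ℝ) ≤ Real.exp (2 * T) := by
      have := Real.add_one_le_exp (2 * (T : ℝ))
      linarith
    have h7 := mul_le_mul_of_nonneg_left h6 (Real.exp_pos (C * T)).le
    have h8 := Real.exp_le_exp.2 hgN
    rw [← hR] at h3
    linarith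
  have hK : ((Kc R : ℕ) : ℝ) ≤ N := by exact_mod_cast Kc_le hRN
  have h5 : F37.cn R ^ 2 = Real.exp (-(7 / 10 * (Kc R : ℝ))) := by
    unfold F37.cn
    rw [← Real.exp_nat_mul]
    congr 1
    push_cast
    ring
  have h3 : (3 : ℝ) ≤ Real.exp (T * √(T : ℝ) / 4) := by
    have h4 := Real.add_one_le_exp (T * √(T : ℝ) / 4)
    nlinarith
  rw [h5]
  calc Real.exp (-(T * √(T : ℝ)) / 2) * 3
      ≤ Real.exp (-(T * √(T : ℝ)) / 2) * Real.exp (T * √(T : ℝ) / 4) :=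
        mul_le_mul_of_nonneg_left h3 (Real.exp_pos _).le
    _ = Real.exp (-(T * √(T : ℝ)) / 4) := by
        rw [← Real.exp_add]
        congr 1
        ring
    _ ≤ _ := Real.exp_le_exp.2 (by nlinarith)

omit [Sq] in
private theorem V3_num (n : ℕ) : ∀ᶠ k : ℕ in atTop,
    (2 ^ k : ℝ) ^ (-(1 / 2) : ℝ) ≤
      Real.exp (-(⌈(n : ℝ) * √(k : ℝ)⌉₊ * √((⌈(n : ℝ) * √(k : ℝ)⌉₊ : ℕ) : ℝ))) := by
  have h1 : Tendsto (fun k : ℕ => (k : ℝ) ^ (1 / 4 : ℝ)) atTop atTop :=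
    (tendsto_rpow_atTop (by norm_num)).comp tendsto_natCast_atTop_atTop
  filter_upwards [h1.eventually_ge_atTop (2 * (((n : ℝ) + 1) * √((n : ℝ) + 1)) / Real.log 2),
    eventually_ge_atTop 1] with k hk hk1
  have hk1' : (1 : ℝ) ≤ k := by exact_mod_cast hk1
  have hk0 : (0 : ℝ) ≤ k := by linarith
  set y : ℝ := (k : ℝ) ^ (1 / 4 : ℝ) with hy
  have hy1 : 1 ≤ y := Real.one_le_rpow hk1' (by norm_num)
  have e2 : (k : ℝ) = y ^ 4 := by
    rw [hy, ← Real.rpow_natCast, ← Real.rpow_mul hk0]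
    norm_num
  have e3 : √(k : ℝ) = y ^ 2 := by
    rw [Real.sqrt_eq_rpow, hy, ← Real.rpow_natCast, ← Real.rpow_mul hk0]
    norm_num
  set N : ℕ := ⌈(n : ℝ) * √(k : ℝ)⌉₊ with hN
  have hlog : 0 < Real.log 2 := Real.log_pos (by norm_num)
  have h2 : (N : ℝ) ≤ ((n : ℝ) + 1) * y ^ 2 := by
    have h3 : (N : ℝ) < (n : ℝ) * √(k : ℝ) + 1 := Nat.ceil_lt_add_one (by positivity)
    rw [e3] at h3
    nlinarith
  have h3 : √(N : ℝ) ≤ √((n : ℝ) + 1) * y := by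
    have h4 := Real.sqrt_le_sqrt h2
    rwa [Real.sqrt_mul (by positivity), Real.sqrt_sq (by linarith)] at h4
  have h4 : (N : ℝ) * √(N : ℝ) ≤ (k : ℝ) * Real.log 2 / 2 := by
    have h5 : (N : ℝ) * √(N : ℝ) ≤ (((n : ℝ) + 1) * y ^ 2) * (√((n : ℝ) + 1) * y) :=
      mul_le_mul h2 h3 (Real.sqrt_nonneg _) (by positivity)
    have h6 : (((n : ℝ) + 1) * y ^ 2) * (√((n : ℝ) + 1) * y) =
        (((n : ℝ) + 1) * √((n : ℝ) + 1)) * y ^ 3 := by ring
    rw [div_le_iff₀ hlog] at hk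
    have h7 := mul_le_mul_of_nonneg_right hk (by positivity : (0 : ℝ) ≤ y ^ 3)
    rw [e2]
    rw [h6] at h5
    have h8 : y * Real.log 2 * y ^ 3 = y ^ 4 * Real.log 2 := by ring
    linarith
  have h5 : (2 ^ k : ℝ) ^ (-(1 / 2) : ℝ) = Real.exp (-((k : ℝ) * Real.log 2 / 2)) := by
    rw [Real.rpow_def_of_pos (by positivity), Real.log_pow]
    congr 1
    ring
  rw [h5]
  exact Real.exp_le_exp.2 (by linarith)

theorem qg_ae (hg : Fast) (hP : F37.Ok Γ D P) (hν : F37.Law ν) : ∀ᵐ ξ ∂(F37.Pm ν),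
    (∀ z, curv (P.X Γ D ξ) z < 0) → ∀ n : ℕ, ∀ᶠ k : ℕ in atTop,
      GN33.QG Γ (P.X Γ D ξ) n (n * √(k : ℝ)) ((2 ^ k : ℝ) ^ (-(1 / 2) : ℝ)) := by
  classical
  obtain ⟨s, hs, hs1, hcs⟩ := hP.c
  have hc : P.c = fun R => s * F37.cn R := funext hcs
  have hcx : Cx Γ D P.m P.ψ P.L fun R => s * F37.cn R := hc ▸ hP.cx
  have hw : Tendsto (fun T : ℕ => √(T : ℝ)) atTop atTop :=
    Real.tendsto_sqrt_atTop.comp tendsto_natCast_atTop_atTop
  have hae : ∀ᵐ ξ ∂(F37.Pm ν), ∀ n K : ℕ, ∀ᶠ T : ℕ in atTop,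
      ¬ Bad Γ P.m P.ψ P.L (fun R => s * F37.cn R) n K T ((K : ℝ) * Real.exp (-(T * √(T : ℝ)))) ξ :=
    ae_all_iff.2 fun n => ae_all_iff.2 fun K => V3_E10ae hν hw (V3_cn hg) hs hcx n K K
  filter_upwards [hae] with ξ hξ hneg' n
  have hrp := D2_rp hcx ξ
  set A : ℝ := ∫ w in D, Real.exp (ex Γ P.ψ P.L P.c ξ w) * √(dt (P.m w)) with hA
  set q : ℝ := Real.exp (-Real.log A) with hqd
  have hq : 0 < q := Real.exp_pos _
  have heq : P.X Γ D ξ = fun z => q • mx Γ P.m P.ψ P.L (fun R => s * F37.cn R) ξ z := by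
    funext z
    have e1 : P.X Γ D ξ z = Real.exp (ex Γ P.ψ P.L P.c ξ z - Real.log A) • P.m z := rfl
    have e2 : mx Γ P.m P.ψ P.L (fun R => s * F37.cn R) ξ z =
        Real.exp (ex Γ P.ψ P.L P.c ξ z) • P.m z := by
      rw [hc]
      rfl
    rw [e1, e2, smul_smul, hqd, ← Real.exp_add]
    congr 2
    ring
  have hneg : ∀ z, curv (mx Γ P.m P.ψ P.L (fun R => s * F37.cn R) ξ) z < 0 := by
    intro z
    have e1 := hneg' z
    rw [heq, E2_scale hrp hq] at e1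
    by_contra h2
    push Not at h2
    exact absurd e1 (not_lt.2 (div_nonneg h2 hq.le))
  have htl : ∀ g : Γ, tl (P.X Γ D ξ) g =
      √q * tl (mx Γ P.m P.ψ P.L (fun R => s * F37.cn R) ξ) g := by
    intro g
    rw [heq]
    exact D1_scale_tl hrp hq g
  have hsq : 0 < √q := Real.sqrt_pos.2 hq
  obtain ⟨K, hK⟩ := exists_nat_ge (1 / √q)
  have hK' : 1 ≤ √q * K := by
    rw [div_le_iff₀ hsq] at hK
    linarith
  rcases Nat.eq_zero_or_pos n with rfl | hn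
  · refine Eventually.of_forall fun k t e ht had => ?_
    obtain ⟨g, hg, -⟩ := had.ne
    rw [Nat.le_zero, Finset.card_eq_zero] at ht
    rw [ht] at hg
    exact absurd hg (Finset.notMem_empty g)
  have hn' : (0 : ℝ) < n := by exact_mod_cast hn
  have hNt : Tendsto (fun k : ℕ => ⌈(n : ℝ) * √(k : ℝ)⌉₊) atTop atTop :=
    tendsto_nat_ceil_atTop.comp (hw.const_mul_atTop hn')
  have hall : ∀ᶠ T : ℕ in atTop, ∀ n' ∈ Finset.range (n + 1),
      ¬ Bad Γ P.m P.ψ P.L (fun R => s * F37.cn R) n' K T ((K : ℝ) * Real.exp (-(T * √(T : ℝ)))) ξ :=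
    (Filter.eventually_all_finset _).2 fun n' _ => hξ n' K
  filter_upwards [hNt.eventually hall, V3_num n] with k hk hnum t e ht had
  by_contra hlt
  push Not at hlt
  set N : ℕ := ⌈(n : ℝ) * √(k : ℝ)⌉₊ with hN
  have hRN : (n : ℝ) * √(k : ℝ) ≤ N := Nat.le_ceil _
  refine hk t.card (Finset.mem_range.2 (Nat.lt_succ_of_le ht)) ⟨hneg,
    fun i => (t.equivFin.symm i : Γ), fun i => had.prim _ (t.equivFin.symm i).2,
    fun i j hij γ => had.nc _ (t.equivFin.symm i).2 _ (t.equivFin.symm j).2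
      (fun h => hij (t.equivFin.symm.injective (Subtype.ext h))) γ,
    fun i => ?_, fun i => e (t.equivFin.symm i), ?_, fun i => ?_, ?_⟩
  · have h2 := (had.len _ (t.equivFin.symm i).2).trans hRN
    rw [htl] at h2
    have h3 : √q * tl (mx Γ P.m P.ψ P.L (fun R => s * F37.cn R) ξ) (t.equivFin.symm i : Γ) ≤
        √q * (K * N) := by
      refine h2.trans ?_
      have h4 := mul_le_mul_of_nonneg_right hK' (Nat.cast_nonneg N : (0 : ℝ) ≤ N)
      linarith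
    exact le_of_mul_le_mul_left h3 hsq
  · obtain ⟨g, hg, hg0⟩ := had.ne
    intro h0
    have h1 := congrFun h0 (t.equivFin ⟨g, hg⟩)
    simp only [Equiv.symm_apply_apply, Pi.zero_apply] at h1
    exact hg0 h1
  · have h2 := (had.coef _ (t.equivFin.symm i).2).trans hRN
    have h3 : ((|e (t.equivFin.symm i)| : ℤ) : ℝ) ≤ ((N : ℤ) : ℝ) := by
      rw [Int.cast_abs]
      push_cast
      exact h2
    exact_mod_cast h3
  · have e1 : ∑ i : Fin t.card, (e (t.equivFin.symm i : Γ) : ℝ) *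
        tl (mx Γ P.m P.ψ P.L (fun R => s * F37.cn R) ξ) (t.equivFin.symm i : Γ) =
        ∑ g ∈ t, (e g : ℝ) * tl (mx Γ P.m P.ψ P.L (fun R => s * F37.cn R) ξ) g := by
      rw [← Finset.sum_coe_sort t]
      exact Equiv.sum_comp t.equivFin.symm (fun g : t => (e (g : Γ) : ℝ) *
        tl (mx Γ P.m P.ψ P.L (fun R => s * F37.cn R) ξ) (g : Γ))
    have h2 : ∑ g ∈ t, (e g : ℝ) * tl (P.X Γ D ξ) g =
        √q * ∑ g ∈ t, (e g : ℝ) * tl (mx Γ P.m P.ψ P.L (fun R => s * F37.cn R) ξ) g := by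
      rw [Finset.mul_sum]
      refine Finset.sum_congr rfl fun g _ => ?_
      rw [htl]
      ring
    rw [h2, abs_mul, abs_of_pos hsq] at hlt
    show |∑ i : Fin t.card, (e (t.equivFin.symm i : Γ) : ℝ) *
        tl (mx Γ P.m P.ψ P.L (fun R => s * F37.cn R) ξ) (t.equivFin.symm i : Γ)| ≤ _
    rw [e1]
    refine le_of_mul_le_mul_left ((hlt.trans hnum).trans ?_) hsq
    have h4 := mul_le_mul_of_nonneg_right hK' (Real.exp_pos (-(N * √(N : ℝ)))).le
    linarith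

end GX66
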