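import Pool.Agent.LibBGM20.Defs

/-! The lengths of the closed geodesics are invariant under isometries. -/

open MeasureTheory Set Filter Topology
open scoped ContDiff

namespace GX66

open BGS BGM

theorem len_iso {m m' : Pl → Co} {e : Pl → Pl} (he : ContDiff ℝ ∞ e)
    (h : ∀ z v, qf (m' (e z)) (fderiv ℝ e z v) = qf (m z) v) {c : ℝ → Pl} (hc : ContDiff ℝ 1 c)
    (a b : ℝ) : len m' (fun t => e (c t)) a b = len m c a b := by
  unfold len
  refine intervalIntegral.integral_congr fun t _ => ?_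
  have h1 : DifferentiableAt ℝ e (c t) := (he.differentiable (by simp)) (c t)
  have h2 : DifferentiableAt ℝ c t := (hc.differentiable (by simp)) t
  have h3 : HasDerivAt (fun t => e (c t)) (fderiv ℝ e (c t) (deriv c t)) t :=
    h1.hasFDerivAt.comp_hasDerivAt t h2.hasDerivAt
  show nm (m' (e (c t))) (deriv (fun t => e (c t)) t) = nm (m (c t)) (deriv c t)
  rw [h3.deriv]
  unfold nm
  rw [h]

theorem ds_iso {m m' : Pl → Co} {e e' : Pl → Pl} (he : ContDiff ℝ ∞ e) (he' : ContDiff ℝ ∞ e')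
    (h1 : ∀ z, e' (e z) = z) (h2 : ∀ z, e (e' z) = z)
    (h : ∀ z v, qf (m' (e z)) (fderiv ℝ e z v) = qf (m z) v) (z w : Pl) :
    ds m' (e z) (e w) = ds m z w := by
  unfold ds
  congr 1
  ext l
  constructor
  · rintro ⟨c, hc, hc0, hc1, hl⟩
    have hc' : ContDiff ℝ 1 fun t => e' (c t) := (he'.of_le (by simp)).comp hc
    refine ⟨fun t => e' (c t), hc', (congrArg e' hc0).trans (h1 z), (congrArg e' hc1).trans (h1 w), ?_⟩
    rw [← len_iso he h hc', ← hl]
    congr 1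
    funext t
    exact h2 (c t)
  · rintro ⟨c, hc, hc0, hc1, hl⟩
    refine ⟨fun t => e (c t), (he.of_le (by simp)).comp hc, congrArg e hc0, congrArg e hc1, ?_⟩
    rw [len_iso he h hc, hl]

theorem tl_iso {Γ Γ' : Type} [Group Γ] [MulAction Γ Pl] [Group Γ'] [MulAction Γ' Pl]
    {m m' : Pl → Co} {e e' : Pl → Pl} (he : ContDiff ℝ ∞ e) (he' : ContDiff ℝ ∞ e')
    (h1 : ∀ z, e' (e z) = z) (h2 : ∀ z, e (e' z) = z)
    (h : ∀ z v, qf (m' (e z)) (fderiv ℝ e z v) = qf (m z) v) (g : Γ) (g' : Γ')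
    (hg : ∀ z, g' • e z = e (g • z)) : tl m' g' = tl m g := by
  unfold tl
  congr 1
  ext l
  constructor
  · rintro ⟨z, hz⟩
    refine ⟨e' z, ?_⟩
    rw [← hz]
    have h3 := ds_iso he he' h1 h2 h (e' z) (g • e' z)
    rw [← hg, h2] at h3
    exact h3.symm
  · rintro ⟨z, hz⟩
    refine ⟨e z, ?_⟩
    rw [← hz]
    show ds m' (e z) (g' • e z) = ds m z (g • z)
    rw [hg]
    exact ds_iso he he' h1 h2 h z (g • z)

end GX66
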