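import Pool.Agent.LibGX66.P9
import Pool.Agent.LibGX66.Q3
import Pool.Agent.LibGX66.U1
import Pool.Agent.LibU36.C7
import Pool.Agent.LibU36.C8
import Pool.Agent.LibBGM20.GM
import Pool.Agent.LibBGM20.H1B

/-! The good metrics are dense: by the uniformisation every metric is, up to a diffeomorphism, in the
family of BE37. -/

open MeasureTheory Set Filter Topology
open scoped ContDiff unitInterval

namespace GX66

open FG33 GWin Mes BGS

variable {Γ : Type} [Group Γ] [MulAction Γ Pl] {D : Set Pl}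

/-- The data of BE37 for a group of hyperbolic isometries. -/
theorem ok_of [F37.Sq] (hX : Surface Γ D) (hO : BR.Ori Γ) (hG : B36.Hyp Γ) (hm : BR.HM Γ B36.mH) {L : ℕ}
    (hL : ∀ z ∈ closure D, |z.1| ≤ (L : ℝ) - 1 ∧ |z.2| ≤ (L : ℝ) - 1) {ψ : Pl → ℝ}
    (hψ : ψ ∈ Test Γ) {s : ℝ} (hs : 0 < s) (hs1 : s ≤ 1) :
    F37.Ok Γ D ⟨B36.mH, ψ, L, fun R => s * F37.cn R⟩ where
  cx := by
    have hrp : BGM.Rp B36.mH := ⟨hm.smooth, hm.pos⟩
    have hiv : BGM.Iv Γ B36.mH := hm.inv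
    obtain ⟨k, hk, hk'⟩ := BGM.E2_base hX hrp hiv
    obtain ⟨E, V, F, hE⟩ := BGM.h1_of hX k B36.mH hk hrp hiv fun z => ⟨hk' z, hm.neg z⟩
    exact ⟨hX, hrp, hiv, ⟨k, E, V, F, hE⟩, hψ, hL, F37.cn_Cs hs hs1, BGM.h1_of hX⟩
  ori := hO
  hyp := hG
  hm := hm
  eq := rfl
  c := ⟨s, hs, hs1, fun _ => rfl⟩

/-- The metric of area one. -/
theorem X_of [F37.Sq] {m' : Mt Γ D} {m : Pl → Co} {ψ : Pl → ℝ} {L : ℕ} {s q : ℝ} (hq : 0 < q)
    {ζ : Dir → I}
    (h : ∀ z, m'.1.1 z = (q * Real.exp (ψ z + s * BGM.ps Γ L F37.cn ζ z)) • m z) :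
    m'.1.1 = B35.Dt.X ⟨m, ψ, L, fun R => s * F37.cn R⟩ Γ D ζ := by
  set f : Pl → ℝ := BGM.ex Γ ψ L (fun R => s * F37.cn R) ζ with hf
  have h' : ∀ z, m'.1.1 z = (q * Real.exp (f z)) • m z := by
    intro z
    rw [h z, hf]
    unfold BGM.ex
    rw [BGM.GM_ps]
  have harea := m'.2.area
  have e1 : ∀ z, √(dt (m'.1.1 z)) = q * (Real.exp (f z) * √(dt (m z))) := by
    intro z
    rw [h' z]
    have e2 : dt ((q * Real.exp (f z)) • m z) = (q * Real.exp (f z)) ^ 2 * dt (m z) := by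
      unfold dt
      simp only [Prod.smul_fst, Prod.smul_snd, smul_eq_mul]
      ring
    rw [e2, Real.sqrt_mul (sq_nonneg _), Real.sqrt_sq (by positivity)]
    ring
  simp only [e1] at harea
  rw [integral_const_mul] at harea
  set A : ℝ := ∫ w in D, Real.exp (f w) * √(dt (m w)) with hA
  have hA0 : 0 < A := by
    by_contra hn
    have h3 := mul_nonpos_of_nonneg_of_nonpos hq.le (not_lt.1 hn)
    linarith
  have hqA : q = Real.exp (-Real.log A) := by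
    rw [Real.exp_neg, Real.exp_log hA0]
    field_simp
    exact harea
  funext z
  rw [h' z]
  unfold B35.Dt.X B35.Dt.h B35.nx
  show (q * Real.exp (f z)) • m z = Real.exp (f z - Real.log A) • m z
  rw [sub_eq_add_neg, Real.exp_add, hqA, mul_comm]

/-- The field. -/
theorem fld (hX : Surface Γ D) (L : ℕ) {c : ℕ → ℝ} (hc : BGS.Cs c) :
    U36.Fld Γ (fun ξ : Dir → I => BGM.ps Γ L c ξ) where
  test := fun ξ => BGM.ps_mem hX L hc ξ
  bound := fun r _ hK => BGM.QML_deriv hX L hc r hK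

/-- The separation of the lengths is invariant under the transport. -/
theorem qg_push (hX : Surface Γ D) {e : Pl ≃ Pl} (he : U36.Df e) (m : Mt Γ D) {r : ℕ} {R δ : ℝ}
    (h : GN33.QG (U36.CjG Γ e) (U36.push hX he m).1.1 r R δ) : GN33.QG Γ m.1.1 r R δ := by
  have hiso : ∀ z v, qf ((U36.push hX he m).1.1 (e z)) (fderiv ℝ e z v) = qf (m.1.1 z) v := by
    intro z v
    rw [← U36.qf_pbk]
    show qf (U36.pbk e (U36.pbk e.symm m.1.1) z) v = qf (m.1.1 z) v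
    rw [U36.pbk_symm he]
  have htl : ∀ g : Γ, BGM.tl (U36.push hX he m).1.1 (U36.toC e g) = BGM.tl m.1.1 g := fun g =>
    tl_iso he.smooth he.smooth' e.symm_apply_apply e.apply_symm_apply hiso g (U36.toC e g)
      fun z => by
        rw [U36.cj_smul, Equiv.symm_apply_apply]
        rfl
  intro s c hs hA
  have h1 := h s c hs ⟨hA.card, hA.prim, hA.nc, hA.coef, fun g hg => by
    have h2 := hA.len g hg
    rw [← htl g] at h2
    exact h2, hA.ne⟩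
  have h3 : ∑ g ∈ s, (c g : ℝ) * BGM.tl (Γ := U36.CjG Γ e) (U36.push hX he m).1.1 g =
      ∑ g ∈ s, (c g : ℝ) * BGM.tl m.1.1 g :=
    Finset.sum_congr rfl fun g _ => by rw [← htl g]; rfl
  exact h1.trans_eq (congrArg abs h3)

/-- The input: the theorem of BE37 for almost every metric of the families. -/
def Inp : Prop :=
  ∀ [F37.Sq] (Γ : Type) [Group Γ] [MulAction Γ Pl] (D : Set Pl) (P : B35.Dt) (ν : ℕ → Measure I),
    F37.Ok Γ D P → F37.Law ν → ∀ A : ℕ → ℝ → ℂ, (∀ j, IsAmp (A j)) →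
      ∀ᵐ ξ ∂(F37.Pm ν), (∀ z, curv (P.X Γ D ξ) z < 0) → ∀ m' : Mt Γ D, m'.1.1 = P.X Γ D ξ →
        BL (lam m') A

theorem good_dense (hI : Inp) (hX : Surface Γ D) (hO : BR.Ori Γ) {L0 : ℝ → ℝ}
    (hL0 : ∀ c : ℝ, 0 < c → ∀ᶠ T : ℝ in atTop, L0 T ≤ T ^ c) {A : ℕ → ℝ → ℂ}
    (hA : ∀ j, IsAmp (A j)) (n : ℕ) :
    _root_.Dense {m : Mt Γ D | ∃ k : ℕ, n + 1 ≤ k ∧ Good (Gx L0) A n k m} := by
  obtain ⟨S, hS⟩ := exists_Ad hL0
  letI := S
  choose u hu using fun R => F37.exists_Qt (F37.Mx R)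
  have hν := F37.Law_of_Qt hu
  intro m
  rw [mem_closure_iff_nhds]
  intro U hU
  obtain ⟨e, w, hE⟩ := U36.exists_unif hX hO m
  obtain ⟨L₀, hL₀⟩ := BGM.GM_dom hE.surf
  have hcs : BGS.Cs F37.cn := by
    have h := F37.cn_Cs one_pos le_rfl
    simpa only [one_mul] using h
  obtain ⟨s₀, hs₀, h1⟩ := U36.Fld_near hX (U36.Fld_comp hE.df (fld hE.surf L₀ hcs)) m hU
  obtain ⟨s, hs⟩ : ∃ s : ℝ, s = min s₀ 1 := ⟨_, rfl⟩
  have hs0 : 0 < s := by
    rw [hs]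
    exact lt_min hs₀ one_pos
  have hs1 : s ≤ 1 := by
    rw [hs]
    exact min_le_right _ _
  have hse : s ≤ s₀ := by
    rw [hs]
    exact min_le_left _ _
  have hψ : (fun z => -w (e.symm z)) ∈ Test (U36.CjG Γ e) := by
    have h2 := U36.cj_test hE.df hE.test
    exact ⟨h2.1.neg, fun γ z => congrArg Neg.neg (h2.2 γ z)⟩
  have hP := ok_of hE.surf hE.ori hE.hyp hE.hm hL₀ hψ hs0 hs1
  have : IsProbabilityMeasure (F37.Pm fun R => (volume : Measure I).map (u R)) :=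
    F37.Pm_prob hν.prob
  obtain ⟨ξ, hξ1, hξ2⟩ := ((hI _ _ _ _ hP hν A hA).and (qg_ae hS.fast hP hν)).exists
  obtain ⟨m', hm', q, hq, hq'⟩ := h1 s hs0 hse ξ
  have heq := X_of (m' := U36.push hX hE.df m') (m := B36.mH) (ψ := fun z => -w (e.symm z))
    (L := L₀) (s := s) (ζ := ξ) hq fun z => by
      rw [U36.push_conf hX hE m' (f := fun y => s * BGM.ps (U36.CjG Γ e) L₀ F37.cn ξ (e y)) hq' z]
      simp only [Equiv.apply_symm_apply]
      congr 3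
      ring
  have hneg : ∀ z, curv (B35.Dt.X ⟨B36.mH, fun z => -w (e.symm z), L₀,
      fun R => s * F37.cn R⟩ (U36.CjG Γ e) (e '' D) ξ) z < 0 := by
    intro z
    rw [← heq]
    exact (U36.push hX hE.df m').2.neg z
  have hQ : ∀ n : ℕ, ∀ᶠ k : ℕ in atTop,
      GN33.QG Γ m'.1.1 n (n * √k) ((2 ^ k : ℝ) ^ (-(1 / 2) : ℝ)) := by
    intro n
    have h2 := hξ2 hneg n
    rw [← heq] at h2
    exact h2.mono fun k hk => qg_push hX hE.df m' hk
  have hB : BL (lam m') A := by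
    have h2 := hξ1 hneg (U36.push hX hE.df m') heq
    have h3 : lam (U36.push hX hE.df m') = lam m' := funext fun k => U36.lam_push hX hE.df m' k
    rw [h3] at h2
    exact h2
  obtain ⟨k, hk, hk'⟩ := ((good_of hS hB hQ n).and (eventually_ge_atTop (n + 1))).exists
  exact ⟨m', hm', k, hk', hk⟩

/-- The generic metric. -/
theorem generic (hI : Inp) (hX : Surface Γ D) (hO : BR.Ori Γ) {L0 : ℝ → ℝ}
    (hL0 : ∀ c : ℝ, 0 < c → ∀ᶠ T : ℝ in atTop, L0 T ≤ T ^ c) :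
    ∀ᶠ m in residual (Mt Γ D),
      (∀ L : ℝ → ℝ, Tendsto L atTop atTop → Tendsto (fun T => L T / Real.log T) atTop (𝓝 0) →
        ∀ (a : ℝ → ℂ) (k : ℕ), FG33.IsAmp a → (k = 1 ∨ EM73.PosFour (FG33.tf a)) →
          EM73.lowMom m (FG33.tf a) L k = EM73.normMom (FE35.vGOE (FG33.tf a)) k) ∧
      ∃ Lam : ℝ → ℝ, Tendsto Lam atTop atTop ∧ (∃ᶠ T in atTop, L0 T ≤ Lam T) ∧
        ∀ L : ℝ → ℝ, Tendsto L atTop atTop → (∀ᶠ T in atTop, L T ≤ Lam T) →
          EM73.GOEMeans m L ∧ FG33.GOEWindows m L :=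
  generic_of hX hO L0 fun _ hA n => good_dense hI hX hO hL0 hA n

end GX66
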